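import Pool.Agent.helper69.GR2B.Spec

/-!
# Project gb: module BCS (the translation argument)
-/

set_option autoImplicit false

open Complex Metric Set Filter Topology MeasureTheory
open MPS (om)
open PPS (pre TT fd)
open XPS (Df er dens tau)
open Pool.Agent.helper16.Multibrot

noncomputable section

namespace GR

theorem BCS : BCS_stmt := by
  intro L w τ s t e hs ht he hτ hL hz hint
  set v : ℂ → ENNReal := fun z => ENNReal.ofReal (L z) with hv
  have hsub1 : ball w (s / 2) ⊆ ball w s := ball_subset_ball (by linarith)
  have hsub2 : ball (w + τ) (s / 2) ⊆ ball w s := by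
    intro z hz'
    rw [mem_ball_iff_norm] at hz' ⊢
    calc ‖z - w‖ = ‖(z - (w + τ)) + τ‖ := by congr 1; ring
      _ ≤ ‖z - (w + τ)‖ + ‖τ‖ := norm_add_le _ _
      _ < s := by linarith
  have hI1 : ∫⁻ z in ball w (s / 2), v z ≤ ENNReal.ofReal e :=
    (lintegral_mono_set hsub1).trans hint
  have hI2 : ∫⁻ z in ball w (s / 2), v (z + τ) ≤ ENNReal.ofReal e := by
    have h1 : ∫⁻ z in ball w (s / 2), v (z + τ) = ∫⁻ z in ball (w + τ) (s / 2), v z := by
      rw [← lintegral_indicator measurableSet_ball, ← lintegral_indicator measurableSet_ball,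
        ← lintegral_add_right_eq_self (fun z => (ball (w + τ) (s / 2)).indicator v z) τ]
      apply lintegral_congr
      intro z
      by_cases hm : z ∈ ball w (s / 2)
      · have hm' : z + τ ∈ ball (w + τ) (s / 2) := by
          rw [mem_ball_iff_norm] at hm ⊢
          have : z + τ - (w + τ) = z - w := by ring
          rw [this]; exact hm
        rw [indicator_of_mem hm, indicator_of_mem hm']
      · have hm' : z + τ ∉ ball (w + τ) (s / 2) := by
          rw [mem_ball_iff_norm] at hm ⊢
          have : z + τ - (w + τ) = z - w := by ring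
          rw [this]; exact hm
        rw [indicator_of_notMem hm, indicator_of_notMem hm']
    rw [h1]
    exact (lintegral_mono_set hsub2).trans hint
  have hmeas : AEMeasurable v (volume.restrict (ball w (s / 2))) := by
    have h1 : AEMeasurable v (volume.restrict (ball w s)) := ENNReal.measurable_ofReal.comp_aemeasurable hL
    exact h1.mono_measure (Measure.restrict_mono hsub1 le_rfl)
  have hkey : ENNReal.ofReal t * volume (ball w (s / 2)) ≤ ENNReal.ofReal e + ENNReal.ofReal e := by
    calc ENNReal.ofReal t * volume (ball w (s / 2))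
        = ∫⁻ _ in ball w (s / 2), ENNReal.ofReal t := by
          rw [setLIntegral_const]
      _ ≤ ∫⁻ z in ball w (s / 2), (v z + v (z + τ)) := by
          apply setLIntegral_mono' measurableSet_ball
          intro z hz'
          exact (ENNReal.ofReal_le_ofReal (hz z hz')).trans ENNReal.ofReal_add_le
      _ = (∫⁻ z in ball w (s / 2), v z) + ∫⁻ z in ball w (s / 2), v (z + τ) :=
          lintegral_add_left' hmeas _
      _ ≤ ENNReal.ofReal e + ENNReal.ofReal e := add_le_add hI1 hI2
  rw [Complex.volume_ball, ← ENNReal.ofReal_add he he] at hkey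
  have hpi : (NNReal.pi : ENNReal) = ENNReal.ofReal Real.pi := by
    rw [← NNReal.coe_real_pi, ENNReal.ofReal_coe_nnreal]
  rw [hpi, ← ENNReal.ofReal_pow (by positivity), ← ENNReal.ofReal_mul (by positivity),
    ← ENNReal.ofReal_mul ht.le, ENNReal.ofReal_le_ofReal_iff (by linarith)] at hkey
  have hpi2 : 2 ≤ Real.pi := Real.two_le_pi
  have h3 : t * ((s / 2) ^ 2 * 2) ≤ t * ((s / 2) ^ 2 * Real.pi) := by
    apply mul_le_mul_of_nonneg_left _ ht.le
    exact mul_le_mul_of_nonneg_left hpi2 (by positivity)
  have h4 : t * ((s / 2) ^ 2 * 2) = t * s ^ 2 / 2 := by ring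
  linarith

end GR
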